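import Mathlib
import Pool.Agent.Helper947.Crv.H4
import Pool.Agent.Helper947.Crv.F7
import Pool.Agent.Helper947.Crv.Z6
import Pool.Agent.Helper920.Gal.Aut

set_option autoImplicit false

open MvPolynomial Filter CategoryTheory CategoryTheory.Limits AlgebraicGeometry
open Pool.Agent.Helper947.Crv

namespace Pool.Agent.H577Z.MonCurve

/-- the components through the explicit curve are moved, over every field of characteristic 0 -/
theorem main_gen {k : Type} [Field k] [CharZero k] {ω : k} (hω : ω ^ 2 + ω + 1 = 0)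
    (𝓗 : HilbertScheme 32 (-1067)) (x : HilbPt 32 (-1067) k)
    (hx : x.I = (macCfg ω).J0) {Z : Set (bc 𝓗 k)}
    (hZ : Z ∈ irreducibleComponents (bc 𝓗 k)) (hxZ : ptOf 𝓗 x ∈ Z)
    (σ : k ≃+* k) (hσ : σ ω ≠ ω) :
    galAct 𝓗 σ '' Z ≠ Z := by
  intro hσZ
  have hirr : IsIrreducible Z := hZ.prop
  have hcl : IsClosed Z := isClosed_of_mem_irreducibleComponents Z hZ
  obtain ⟨η, hη⟩ := QuasiSober.sober hirr hcl
  have hω' : (σ ω) ^ 2 + σ ω + 1 = 0 := by
    rw [← map_pow, ← map_add, ← map_one σ, ← map_add, hω, map_zero]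
  have hc := macCfg_good hω
  have hc' := macCfg_good hω'
  obtain ⟨x', hx'⟩ := exists_pt hc' (d := 32) (g := -1067) (by simp) (by
    rw [macE_card]
    simp)
  have hmap : (macCfg ω).map (σ : k →+* k) = macCfg (σ ω) := by
    unfold macCfg
    rw [mkCfg_map]
    congr 1
    · funext j
      exact eis_map _ _ _
    · funext j
      exact eis_map _ _ _
  have hgal : galAct 𝓗 σ (ptOf 𝓗 x) = ptOf 𝓗 x' := by
    apply galAct_ptOf
    have h1 := J0_map (σ : k →+* k) hc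
    rw [eventually_atTop] at h1
    obtain ⟨m0, hm0⟩ := h1
    refine ⟨m0, fun m hm p hp => ?_⟩
    rw [hx, hx', hm0 m hm p hp, hmap]
  have hx'Z : ptOf 𝓗 x' ∈ Z := by
    rw [← hσZ, ← hgal]
    exact ⟨_, hxZ, rfl⟩
  have hsp : η ⤳ ptOf 𝓗 x := hη.specializes hxZ
  have hsp' : η ⤳ ptOf 𝓗 x' := hη.specializes hx'Z
  obtain ⟨K, _, _, f, hf⟩ := exists_geom η
  have hid : ∀ p : bc 𝓗 k, bcMap 𝓗 (RingHom.id k) p = p := by
    intro p
    rw [bcMap_id]
    rfl
  obtain ⟨V, θ, s, h1, h2, h3⟩ := key 𝓗 (RingHom.id k)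
    (fun a => ⟨a, rfl⟩) x f (by rw [hf, hid]; exact hsp) hc hx
  obtain ⟨V', θ', s', h1', h2', h3'⟩ := key 𝓗 (RingHom.id k)
    (fun a => ⟨a, rfl⟩) x' f (by rw [hf, hid]; exact hsp') hc' hx'
  have hs : V.subtype.comp s = V'.subtype.comp s' := by
    have h4 := h2.trans h2'.symm
    have h5 := Spec.map_injective h4
    exact congrArg CommRingCat.Hom.hom h5
  refine mac_contra hω hω' (fun h => hσ h.symm) V V' s s' hs
    (𝓗.Φ K (f ≫ pullback.fst _ _)).hom ?_ ?_
  · rw [h1]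
    exact h3
  · rw [h1']
    exact h3'

theorem bcMap_comp {d g : ℤ} (𝓗 : HilbertScheme d g) {R R' R'' : Type} [CommRing R] [CommRing R']
    [CommRing R''] (φ : R →+* R') (ψ : R' →+* R'') :
    bcMap 𝓗 ψ ≫ bcMap 𝓗 φ = bcMap 𝓗 (ψ.comp φ) := by
  apply pullback.hom_ext
  · simp only [bcMap, pullback.map, pullback.lift_fst, Category.comp_id, Category.assoc]
  · simp only [bcMap, pullback.map, pullback.lift_snd, Category.assoc, pullback.lift_snd_assoc,
      CommRingCat.ofHom_comp, Spec.map_comp]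

theorem galAct_isIso {d g : ℤ} (𝓗 : HilbertScheme d g) {k : Type} [Field k] (σ : k ≃+* k) :
    IsIso (galAct 𝓗 σ) := by
  refine ⟨bcMap 𝓗 (σ : k →+* k), ?_, ?_⟩
  · unfold galAct
    rw [bcMap_comp]
    have : ((σ.symm : k →+* k).comp (σ : k →+* k)) = RingHom.id k := by
      ext y; simp
    rw [this, bcMap_id]
  · unfold galAct
    rw [bcMap_comp]
    have : ((σ : k →+* k).comp (σ.symm : k →+* k)) = RingHom.id k := by
      ext y; simp
    rw [this, bcMap_id]

theorem image_comp {X Y : Scheme.{0}} (f : X ⟶ Y) [IsIso f] {Z : Set X}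
    (hZ : Z ∈ irreducibleComponents X) : f '' Z ∈ irreducibleComponents Y := by
  let e : X ≃ₜ Y := f.homeomorph
  have he : (f : X → Y) = e := rfl
  rw [he]
  refine ⟨hZ.prop.image _ e.continuous.continuousOn, fun W hW hZW => ?_⟩
  have h1 : IsIrreducible (e.symm '' W) := hW.image _ e.symm.continuous.continuousOn
  have h2 : Z ⊆ e.symm '' W := fun z hz => ⟨e z, hZW ⟨z, hz, rfl⟩, e.symm_apply_apply z⟩
  have h3 := hZ.2 h1 h2
  intro w hw
  exact ⟨e.symm w, h3 ⟨w, hw, rfl⟩, e.apply_symm_apply w⟩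

theorem map_span_monomial {K : Type} [Field K] (σ : K →+* K) (S : Set (Fin 4 →₀ ℕ)) :
    (Ideal.span ((fun s => monomial s (1 : K)) '' S)).map (MvPolynomial.map σ) =
      Ideal.span ((fun s => monomial s (1 : K)) '' S) := by
  rw [Ideal.map_span]
  congr 1
  rw [← Set.image_comp]
  refine Set.image_congr fun s _ => ?_
  rw [Function.comp_apply, map_monomial, map_one]

/-- points of monomial ideals are fixed by the Galois action -/
theorem galAct_fix {d g : ℤ} (𝓗 : HilbertScheme d g) {k : Type} [Field k] (σ : k ≃+* k)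
    (x : HilbPt d g k) (S : Set (Fin 4 →₀ ℕ))
    (h : x.I = Ideal.span ((fun s => monomial s (1 : k)) '' S)) :
    galAct 𝓗 σ (ptOf 𝓗 x) = ptOf 𝓗 x := by
  apply galAct_ptOf
  refine ⟨0, fun m _ p _ => ?_⟩
  rw [h, map_span_monomial]

theorem main (K : Type) [Field K] [IsAlgClosed K] [CharZero K] (𝓗 : HilbertScheme 32 (-1067)) :
    ∃ Z₁ ∈ irreducibleComponents (bc 𝓗 K), ∃ Z₂ ∈ irreducibleComponents (bc 𝓗 K),
      Z₁ ≠ Z₂ ∧ ∀ (x : HilbPt 32 (-1067) K) (S : Set (Fin 4 →₀ ℕ)),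
        x.I = Ideal.span ((fun s => monomial s (1 : K)) '' S) →
          (ptOf 𝓗 x ∈ Z₁ ↔ ptOf 𝓗 x ∈ Z₂) := by
  obtain ⟨ω, σ, hω, hσ⟩ := Pool.Agent.Helper920.Gal.exists_aut K
  obtain ⟨x, hx⟩ := exists_pt (d := 32) (g := -1067) (macCfg_good hω)
    (by norm_num) (by rw [macE_card]; norm_num)
  have hZ := irreducibleComponent_mem_irreducibleComponents (ptOf 𝓗 x)
  have := galAct_isIso 𝓗 σ
  refine ⟨_, hZ, _, image_comp (galAct 𝓗 σ) hZ,
    (main_gen hω 𝓗 x hx hZ mem_irreducibleComponent σ hσ).symm, fun y S hy => ?_⟩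
  have h2 := galAct_fix 𝓗 σ y S hy
  constructor
  · intro h
    exact ⟨_, h, h2⟩
  · rintro ⟨z, hz, hz'⟩
    have h5 : z = ptOf 𝓗 y := by
      apply (galAct 𝓗 σ).homeomorph.injective
      exact hz'.trans h2.symm
    rwa [h5] at hz

end Pool.Agent.H577Z.MonCurve
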